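import Pool.Agent.NPC.Dec
import Pool.Agent.H671R2.PolyAuto

/-!
# Closure of `P` under complement
-/

namespace Pool.Agent.H25R3.Cones

open Pool.Agent.NPC

/-- `P` is closed under complement. -/
theorem inP_compl {L : Set (List Bool)} (h : InP L) : InP Lᶜ := by
  obtain ⟨V, hV, hV'⟩ := h
  have h1 : PC (fun x : List Bool => x) (fun x : List Bool => x) V :=
    H642R2.TMSim.polyTime_toPC hV
  have h2 : PC (fun x : List Bool => x) (bits : List Bool → List Bool) V :=
    PC.comp (g := fun x => x) (f := V) PC.rawIn h1
  have h3 : NPC.Poly (fun y : List Bool => !decide (y = [true])) := by fun_prop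
  have h4 : PC (fun x : List Bool => x) (bits : Bool → List Bool)
      (fun x => !decide (V x = [true])) :=
    PC.comp (g := fun y : List Bool => !decide (y = [true])) (f := V) h3 h2
  refine ⟨fun x => [!decide (V x = [true])], PC.toPolyTime (PC.comp (g := fun b => [b])
    (f := fun x => !decide (V x = [true])) PC.rawBool h4), fun x => ?_⟩
  rw [Set.mem_compl_iff, hV' x]
  simp

/-- If a `coNP`-hard problem is in `P` then all of `NP` is in `P`. -/
theorem coNPHardP_collapse {α : Type} [TEnc α] {P : α → Prop} (hP : CoNPHardP P) (h : InPP P) :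
    ∀ L, InNP L → InP L := by
  intro L hL
  have h1 : InCoNP Lᶜ := by
    unfold InCoNP
    rwa [compl_compl]
  have h2 := inP_compl (InP.of_reduces (hP _ h1) h)
  rwa [compl_compl] at h2

end Pool.Agent.H25R3.Cones
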