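import Mathlib
import Pool.Agent.NPC.Classes

/-!
# Vertex cones of the polyhedra `A x ≤ b`, `x ≥ 0`
-/

namespace Pool.Agent.H25R3.Cones

open Pool.Agent.NPC

/-- The polyhedron `{x : A x ≤ b, x ≥ 0}`. -/
def polyhedron {m n : ℕ} (A : Matrix (Fin m) (Fin n) ℝ) (b : Fin m → ℝ) : Set (Fin n → ℝ) :=
  {x | (∀ i, A.mulVec x i ≤ b i) ∧ ∀ j, 0 ≤ x j}

/-- `F` is a facet of the set `P` in `ℝ^n`: a nonempty exposed face of dimension `n - 1`. -/
def IsFacet {n : ℕ} (P F : Set (Fin n → ℝ)) : Prop :=
  F.Nonempty ∧ IsExposed ℝ P F ∧ Module.finrank ℝ (vectorSpan ℝ F) + 1 = n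

/-- `c` is a normal vector of `F` scaled to be an integer vector whose entries have greatest common
divisor `1`: the linear functional given by `c` is constant on `F`. (For a facet this determines
`c` up to sign.) -/
def IsNormal {n : ℕ} (F : Set (Fin n → ℝ)) (c : Fin n → ℤ) : Prop :=
  Finset.univ.gcd c = 1 ∧ ∀ x ∈ F, ∀ y ∈ F, ∑ j, (c j : ℝ) * x j = ∑ j, (c j : ℝ) * y j

/-- The matrix with one row for each facet of `P` containing `u`, namely its normal vector, is a
square matrix of determinant `1` up to sign. -/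
def UnimodularAt {n : ℕ} (P : Set (Fin n → ℝ)) (u : Fin n → ℝ) : Prop :=
  ∃ (e : Fin n ≃ {F : Set (Fin n → ℝ) // IsFacet P F ∧ u ∈ F}) (M : Matrix (Fin n) (Fin n) ℤ),
    (∀ i, IsNormal (e i : Set (Fin n → ℝ)) (M i)) ∧ |M.det| = 1

/-- Instances: the number `n` of columns (in unary), and the list of the rows of `A`, as lists of
bits, with the entries of `b`. -/
abbrev Inst := List Unit × List (List Bool × ℚ)

/-- The number of columns. -/
abbrev Inst.n (I : Inst) : ℕ := I.1.length

/-- The number of rows. -/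
abbrev Inst.m (I : Inst) : ℕ := I.2.length

/-- The matrix `A`. -/
def Inst.A (I : Inst) : Matrix (Fin I.m) (Fin I.n) ℝ :=
  fun i j => if (I.2.get i).1.getD j false = true then 1 else 0

/-- The vector `b`. -/
def Inst.b (I : Inst) : Fin I.m → ℝ := fun i => ((I.2.get i).2 : ℝ)

/-- The instance is well-formed: all rows have length `n`, and `b > 0`. -/
def Inst.Valid (I : Inst) : Prop := ∀ r ∈ I.2, r.1.length = I.n ∧ 0 < r.2

/-- The decision problem: `A(u)` is a square matrix with `|det A(u)| = 1` for every vertex `u`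
of `{x : A x ≤ b, x ≥ 0}`. -/
def UnimodularCones (I : Inst) : Prop :=
  I.Valid ∧ ∀ u ∈ (polyhedron I.A I.b).extremePoints ℝ, UnimodularAt (polyhedron I.A I.b) u

end Pool.Agent.H25R3.Cones
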