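import Pool.Agent.H25R3.Cones.Tri

/-!
# Vertices of the polyhedron of a triangle with pendant edges
-/

namespace Pool.Agent.H25R3.Cones

/-- the integers as a subgroup of the reals -/
noncomputable abbrev ZZ : AddSubgroup ℝ := (Int.castAddHom ℝ).range

theorem mem_ZZ {r : ℝ} : r ∈ ZZ ↔ ∃ m : ℤ, r = m := by
  simp only [ZZ, AddMonoidHom.mem_range, Int.coe_castAddHom]
  exact ⟨fun ⟨m, hm⟩ => ⟨m, hm.symm⟩, fun ⟨m, hm⟩ => ⟨m, hm.symm⟩⟩

theorem ZZ_left {x y : ℝ} (h : x + y ∈ ZZ) (hy : y ∈ ZZ) : x ∈ ZZ := by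
  have := ZZ.sub_mem h hy
  rwa [add_sub_cancel_right] at this

theorem ZZ_right {x y : ℝ} (h : x + y ∈ ZZ) (hx : x ∈ ZZ) : y ∈ ZZ := by
  have := ZZ.sub_mem h hx
  rwa [add_sub_cancel_left] at this

variable {N : ℕ} {s : Fin N → ℕ} {T : ℕ} {z : Fin N → ℝ} {X Y W : ℝ}

/-- the tight constraints determine the vertex -/
def Rigid (s : Fin N → ℕ) (T : ℕ) (z : Fin N → ℝ) (X Y W : ℝ) : Prop :=
  ∀ (dz : Fin N → ℝ) (dX dY dW : ℝ), (∀ i, z i = 0 → dz i = 0) → (∀ i, z i = 4 * s i → dz i = 0) →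
    ((∑ i, z i) + X + Y = 4 * T + 5 → (∑ i, dz i) + dX + dY = 0) → (X + W = 4 → dX + dW = 0) →
    (Y + W = 2 → dY + dW = 0) → (X = 0 → dX = 0) → (Y = 0 → dY = 0) → (W = 0 → dW = 0) →
    (∀ i, dz i = 0) ∧ dX = 0 ∧ dY = 0 ∧ dW = 0

theorem tightA (hW : 0 ≤ W) (hY : 0 ≤ Y)
    (nosol : ∀ c : Fin N → Bool, (∑ i, if c i then s i else 0) ≠ T)
    (H : Rigid s T z X Y W) (hz : ∀ i, z i = 0 ∨ z i = 4 * s i)
    (dX dY dW : ℝ)
    (i0 : (∑ i, z i) + X + Y = 4 * T + 5 → dX + dY ∈ ZZ) (i1 : X + W = 4 → dX + dW ∈ ZZ)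
    (i2 : Y + W = 2 → dY + dW ∈ ZZ) (iX : X = 0 → dX ∈ ZZ) (iY : Y = 0 → dY ∈ ZZ)
    (iW : W = 0 → dW ∈ ZZ) : dX ∈ ZZ ∧ dY ∈ ZZ ∧ dW ∈ ZZ := by
  have H' : ∀ eX eY eW : ℝ, ((∑ i, z i) + X + Y = 4 * T + 5 → eX + eY = 0) →
      (X + W = 4 → eX + eW = 0) → (Y + W = 2 → eY + eW = 0) → (X = 0 → eX = 0) →
      (Y = 0 → eY = 0) → (W = 0 → eW = 0) → eX = 0 ∧ eY = 0 ∧ eW = 0 := by
    intro eX eY eW h0 h1 h2 hX hY hW
    have := H 0 eX eY eW (by simp) (by simp) (by simpa using h0) h1 h2 hX hY hW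
    exact this.2
  have nall : ¬ ((∑ i, z i) + X + Y = 4 * T + 5 ∧ X + W = 4 ∧ Y + W = 2) := by
    rintro ⟨h0, h1, h2⟩
    obtain ⟨c, hc⟩ := sum_tight hz
    have hsum : ∑ i, z i = 4 * (((∑ i, if c i then s i else 0 : ℕ) : ℕ) : ℝ) := by
      rw [Nat.cast_sum, Finset.mul_sum]
      exact Finset.sum_congr rfl fun i _ => hc i
    have hne := nosol c
    generalize (∑ i, if c i then s i else 0) = m at hsum hne
    rw [hsum] at h0
    have h5 : X + Y = ((4 * ((T : ℤ) - m) + 5 : ℤ) : ℝ) := by push_cast; linarith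
    have h6 : X + Y = 6 - 2 * W := by linarith
    have h7 : ((4 * ((T : ℤ) - m) + 5 : ℤ) : ℝ) ≤ ((6 : ℤ) : ℝ) := by
      rw [← h5]; push_cast; linarith
    have h8 : ((2 : ℤ) : ℝ) ≤ ((4 * ((T : ℤ) - m) + 5 : ℤ) : ℝ) := by
      rw [← h5]; push_cast; linarith
    rw [Int.cast_le] at h7 h8
    omega
  have fX : (∑ i, z i) + X + Y = 4 * T + 5 ∨ X + W = 4 ∨ X = 0 := by
    by_contra hcon
    push Not at hcon
    obtain ⟨n0, n1, n2⟩ := hcon
    exact one_ne_zero (H' 1 0 0 (fun h => absurd h n0) (fun h => absurd h n1) (by simp)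
      (fun h => absurd h n2) (by simp) (by simp)).1
  have fY : (∑ i, z i) + X + Y = 4 * T + 5 ∨ Y + W = 2 ∨ Y = 0 := by
    by_contra hcon
    push Not at hcon
    obtain ⟨n0, n1, n2⟩ := hcon
    exact one_ne_zero (H' 0 1 0 (fun h => absurd h n0) (by simp) (fun h => absurd h n1)
      (by simp) (fun h => absurd h n2) (by simp)).2.1
  have fW : X + W = 4 ∨ Y + W = 2 ∨ W = 0 := by
    by_contra hcon
    push Not at hcon
    obtain ⟨n0, n1, n2⟩ := hcon
    exact one_ne_zero (H' 0 0 1 (by simp) (fun h => absurd h n0) (fun h => absurd h n1)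
      (by simp) (by simp) (fun h => absurd h n2)).2.2
  have fXY : X + W = 4 ∨ Y + W = 2 ∨ X = 0 ∨ Y = 0 := by
    by_contra hcon
    push Not at hcon
    obtain ⟨n0, n1, n2, n3⟩ := hcon
    exact one_ne_zero (H' 1 (-1) 0 (by simp) (fun h => absurd h n0) (fun h => absurd h n1)
      (fun h => absurd h n2) (fun h => absurd h n3) (by simp)).1
  have fXW : (∑ i, z i) + X + Y = 4 * T + 5 ∨ Y + W = 2 ∨ X = 0 ∨ W = 0 := by
    by_contra hcon
    push Not at hcon
    obtain ⟨n0, n1, n2, n3⟩ := hcon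
    exact one_ne_zero (H' 1 0 (-1) (fun h => absurd h n0) (by simp) (fun h => absurd h n1)
      (fun h => absurd h n2) (by simp) (fun h => absurd h n3)).1
  have fYW : (∑ i, z i) + X + Y = 4 * T + 5 ∨ X + W = 4 ∨ Y = 0 ∨ W = 0 := by
    by_contra hcon
    push Not at hcon
    obtain ⟨n0, n1, n2, n3⟩ := hcon
    exact one_ne_zero (H' 0 1 (-1) (fun h => absurd h n0) (fun h => absurd h n1) (by simp)
      (by simp) (fun h => absurd h n2) (fun h => absurd h n3)).2.1
  have f3 : X = 0 ∨ Y = 0 ∨ W = 0 := by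
    by_contra hcon
    push Not at hcon
    obtain ⟨n1, n2, n3⟩ := hcon
    apply nall
    refine ⟨?_, ?_, ?_⟩
    · by_contra n0
      exact one_ne_zero (H' 1 1 (-1) (fun h => absurd h n0) (by simp) (by simp)
        (fun h => absurd h n1) (fun h => absurd h n2) (fun h => absurd h n3)).1
    · by_contra n0
      exact one_ne_zero (H' 1 (-1) 1 (by simp) (fun h => absurd h n0) (by simp)
        (fun h => absurd h n1) (fun h => absurd h n2) (fun h => absurd h n3)).1
    · by_contra n0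
      exact one_ne_zero (H' (-1) 1 1 (by simp) (by simp) (fun h => absurd h n0)
        (fun h => absurd h n1) (fun h => absurd h n2) (fun h => absurd h n3)).2.1
  -- integrality
  rcases f3 with qX | qY | qW
  · have eX := iX qX
    have g1 : dY ∈ ZZ ∨ dY + dW ∈ ZZ := by
      rcases fY with h | h | h
      · exact Or.inl (ZZ_right (i0 h) eX)
      · exact Or.inr (i2 h)
      · exact Or.inl (iY h)
    have g2 : dW ∈ ZZ ∨ dY + dW ∈ ZZ := by
      rcases fW with h | h | h
      · exact Or.inl (ZZ_right (i1 h) eX)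
      · exact Or.inr (i2 h)
      · exact Or.inl (iW h)
    have g3 : dY ∈ ZZ ∨ dW ∈ ZZ := by
      rcases fYW with h | h | h | h
      · exact Or.inl (ZZ_right (i0 h) eX)
      · exact Or.inr (ZZ_right (i1 h) eX)
      · exact Or.inl (iY h)
      · exact Or.inr (iW h)
    rcases g3 with h | h
    · rcases g2 with h' | h'
      · exact ⟨eX, h, h'⟩
      · exact ⟨eX, h, ZZ_right h' h⟩
    · rcases g1 with h' | h'
      · exact ⟨eX, h', h⟩
      · exact ⟨eX, ZZ_left h' h, h⟩
  · have eY := iY qY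
    have g1 : dX ∈ ZZ ∨ dX + dW ∈ ZZ := by
      rcases fX with h | h | h
      · exact Or.inl (ZZ_left (i0 h) eY)
      · exact Or.inr (i1 h)
      · exact Or.inl (iX h)
    have g2 : dW ∈ ZZ ∨ dX + dW ∈ ZZ := by
      rcases fW with h | h | h
      · exact Or.inr (i1 h)
      · exact Or.inl (ZZ_right (i2 h) eY)
      · exact Or.inl (iW h)
    have g3 : dX ∈ ZZ ∨ dW ∈ ZZ := by
      rcases fXW with h | h | h | h
      · exact Or.inl (ZZ_left (i0 h) eY)
      · exact Or.inr (ZZ_right (i2 h) eY)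
      · exact Or.inl (iX h)
      · exact Or.inr (iW h)
    rcases g3 with h | h
    · rcases g2 with h' | h'
      · exact ⟨h, eY, h'⟩
      · exact ⟨h, eY, ZZ_right h' h⟩
    · rcases g1 with h' | h'
      · exact ⟨h', eY, h⟩
      · exact ⟨ZZ_left h' h, eY, h⟩
  · have eW := iW qW
    have g1 : dX ∈ ZZ ∨ dX + dY ∈ ZZ := by
      rcases fX with h | h | h
      · exact Or.inr (i0 h)
      · exact Or.inl (ZZ_left (i1 h) eW)
      · exact Or.inl (iX h)
    have g2 : dY ∈ ZZ ∨ dX + dY ∈ ZZ := by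
      rcases fY with h | h | h
      · exact Or.inr (i0 h)
      · exact Or.inl (ZZ_left (i2 h) eW)
      · exact Or.inl (iY h)
    have g3 : dX ∈ ZZ ∨ dY ∈ ZZ := by
      rcases fXY with h | h | h | h
      · exact Or.inl (ZZ_left (i1 h) eW)
      · exact Or.inr (ZZ_left (i2 h) eW)
      · exact Or.inl (iX h)
      · exact Or.inr (iY h)
    rcases g3 with h | h
    · rcases g2 with h' | h'
      · exact ⟨h, h', eW⟩
      · exact ⟨h, ZZ_right h' h, eW⟩
    · rcases g1 with h' | h'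
      · exact ⟨h', h, eW⟩
      · exact ⟨ZZ_left h' h, h, eW⟩

/-- the case of a free variable -/
theorem tightB (H : Rigid s T z X Y W) {k : Fin N} (hk : z k ≠ 0) (hk' : z k ≠ 4 * s k)
    (dz : Fin N → ℝ) (dX dY dW : ℝ)
    (iz : ∀ i, z i = 0 ∨ z i = 4 * s i → dz i ∈ ZZ)
    (i0 : (∑ i, z i) + X + Y = 4 * T + 5 → (∑ i, dz i) + dX + dY ∈ ZZ)
    (i1 : X + W = 4 → dX + dW ∈ ZZ)
    (i2 : Y + W = 2 → dY + dW ∈ ZZ) (iX : X = 0 → dX ∈ ZZ) (iY : Y = 0 → dY ∈ ZZ)
    (iW : W = 0 → dW ∈ ZZ) : (∀ i, dz i ∈ ZZ) ∧ dX ∈ ZZ ∧ dY ∈ ZZ ∧ dW ∈ ZZ := by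
  classical
  have H' : ∀ r eX eY eW : ℝ, ((∑ i, z i) + X + Y = 4 * T + 5 → r + eX + eY = 0) →
      (X + W = 4 → eX + eW = 0) → (Y + W = 2 → eY + eW = 0) → (X = 0 → eX = 0) →
      (Y = 0 → eY = 0) → (W = 0 → eW = 0) → r = 0 ∧ eX = 0 ∧ eY = 0 ∧ eW = 0 := by
    intro r eX eY eW h0 h1 h2 hX hY hW
    have := H (fun i => if i = k then r else 0) eX eY eW
      (fun i hi => by
        have : i ≠ k := fun h => hk (h ▸ hi)
        simp [this])
      (fun i hi => by
        have : i ≠ k := fun h => hk' (h ▸ hi)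
        simp [this]) (by simpa using h0) h1 h2 hX hY hW
    refine ⟨?_, this.2⟩
    simpa using this.1 k
  have p0 : (∑ i, z i) + X + Y = 4 * T + 5 := by
    by_contra hcon
    exact one_ne_zero (H' 1 0 0 0 (fun h => absurd h hcon) (by simp) (by simp) (by simp)
      (by simp) (by simp)).1
  have huniq : ∀ i, i ≠ k → z i = 0 ∨ z i = 4 * s i := by
    intro i hi
    by_contra hcon
    push Not at hcon
    have := H (fun j => if j = k then 1 else if j = i then -1 else 0) 0 0 0
      (fun j hj => by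
        have h1 : j ≠ k := fun h => hk (h ▸ hj)
        have h2 : j ≠ i := fun h => hcon.1 (h ▸ hj)
        simp [h1, h2])
      (fun j hj => by
        have h1 : j ≠ k := fun h => hk' (h ▸ hj)
        have h2 : j ≠ i := fun h => hcon.2 (h ▸ hj)
        simp [h1, h2])
      (fun _ => by
        have : ∀ j : Fin N, (if j = k then (1 : ℝ) else if j = i then -1 else 0) =
            (if j = k then 1 else 0) + (if j = i then -1 else 0) := by
          intro j
          by_cases h1 : j = k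
          · have h2 : j ≠ i := fun h => hi (h.symm.trans h1)
            simp [h1, Ne.symm hi]
          · simp [h1]
        simp only [this, Finset.sum_add_distrib]
        simp)
      (by simp) (by simp) (by simp) (by simp) (by simp)
    have h1 := this.1 k
    simp at h1
  have fX : X + W = 4 ∨ X = 0 := by
    by_contra hcon
    push Not at hcon
    obtain ⟨n1, n2⟩ := hcon
    exact one_ne_zero (H' (-1) 1 0 0 (by simp) (fun h => absurd h n1) (by simp)
      (fun h => absurd h n2) (by simp) (by simp)).2.1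
  have fY : Y + W = 2 ∨ Y = 0 := by
    by_contra hcon
    push Not at hcon
    obtain ⟨n1, n2⟩ := hcon
    exact one_ne_zero (H' (-1) 0 1 0 (by simp) (by simp) (fun h => absurd h n1) (by simp)
      (fun h => absurd h n2) (by simp)).2.2.1
  have fW : X + W = 4 ∨ Y + W = 2 ∨ W = 0 := by
    by_contra hcon
    push Not at hcon
    obtain ⟨n0, n1, n2⟩ := hcon
    exact one_ne_zero (H' 0 0 0 1 (by simp) (fun h => absurd h n0) (fun h => absurd h n1)
      (by simp) (by simp) (fun h => absurd h n2)).2.2.2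
  have fXW : Y + W = 2 ∨ X = 0 ∨ W = 0 := by
    by_contra hcon
    push Not at hcon
    obtain ⟨n0, n1, n2⟩ := hcon
    exact one_ne_zero (H' (-1) 1 0 (-1) (by simp) (by simp) (fun h => absurd h n0)
      (fun h => absurd h n1) (by simp) (fun h => absurd h n2)).2.1
  have fYW : X + W = 4 ∨ Y = 0 ∨ W = 0 := by
    by_contra hcon
    push Not at hcon
    obtain ⟨n0, n1, n2⟩ := hcon
    exact one_ne_zero (H' (-1) 0 1 (-1) (by simp) (fun h => absurd h n0) (by simp)
      (by simp) (fun h => absurd h n1) (fun h => absurd h n2)).2.2.1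
  have f3 : X = 0 ∨ Y = 0 ∨ W = 0 := by
    by_contra hcon
    push Not at hcon
    obtain ⟨n0, n1, n2⟩ := hcon
    exact one_ne_zero (H' (-2) 1 1 (-1) (fun _ => by norm_num) (by simp) (by simp)
      (fun h => absurd h n0) (fun h => absurd h n1) (fun h => absurd h n2)).2.1
  have key : dX ∈ ZZ ∧ dY ∈ ZZ ∧ dW ∈ ZZ := by
    rcases f3 with qX | qY | qW
    · have eX := iX qX
      rcases fW with h | h | h
      · have eW := ZZ_right (i1 h) eX
        rcases fY with h' | h'
        · exact ⟨eX, ZZ_left (i2 h') eW, eW⟩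
        · exact ⟨eX, iY h', eW⟩
      · rcases fYW with h' | h' | h'
        · have eW := ZZ_right (i1 h') eX
          exact ⟨eX, ZZ_left (i2 h) eW, eW⟩
        · have eY := iY h'
          exact ⟨eX, eY, ZZ_right (i2 h) eY⟩
        · have eW := iW h'
          exact ⟨eX, ZZ_left (i2 h) eW, eW⟩
      · have eW := iW h
        rcases fY with h' | h'
        · exact ⟨eX, ZZ_left (i2 h') eW, eW⟩
        · exact ⟨eX, iY h', eW⟩
    · have eY := iY qY
      rcases fW with h | h | h
      · rcases fXW with h' | h' | h'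
        · have eW := ZZ_right (i2 h') eY
          exact ⟨ZZ_left (i1 h) eW, eY, eW⟩
        · have eX := iX h'
          exact ⟨eX, eY, ZZ_right (i1 h) eX⟩
        · have eW := iW h'
          exact ⟨ZZ_left (i1 h) eW, eY, eW⟩
      · have eW := ZZ_right (i2 h) eY
        rcases fX with h' | h'
        · exact ⟨ZZ_left (i1 h') eW, eY, eW⟩
        · exact ⟨iX h', eY, eW⟩
      · have eW := iW h
        rcases fX with h' | h'
        · exact ⟨ZZ_left (i1 h') eW, eY, eW⟩
        · exact ⟨iX h', eY, eW⟩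
    · have eW := iW qW
      have eX : dX ∈ ZZ := by
        rcases fX with h' | h'
        · exact ZZ_left (i1 h') eW
        · exact iX h'
      have eY : dY ∈ ZZ := by
        rcases fY with h' | h'
        · exact ZZ_left (i2 h') eW
        · exact iY h'
      exact ⟨eX, eY, eW⟩
  refine ⟨fun i => ?_, key⟩
  by_cases hi : i = k
  · subst hi
    have h1 := ZZ_left (ZZ_left (i0 p0) key.2.1) key.1
    rw [← Finset.add_sum_erase _ _ (Finset.mem_univ i)] at h1
    refine ZZ_left h1 (ZZ.sum_mem fun j hj => ?_)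
    exact iz j (huniq j (Finset.ne_of_mem_erase hj))
  · exact iz i (huniq i hi)

variable {n : ℕ} (hn : n = N + 3)

include hn in
theorem rigid_of {u : Fin n → ℝ}
    (hsp : ∀ d : Fin n → ℝ, (∀ k, dotL (aK N n k) u = bK N n s T k → dotL (aK N n k) d = 0) →
      d = 0) :
    Rigid s T (fun i => u (cz hn i)) (u (jX hn)) (u (jY hn)) (u (jW hn)) := by
  intro dz dX dY dW h1 h2 h3 h4 h5 h6 h7 h8
  have := hsp (vec dz dX dY dW) (by
    intro k hk
    rcases k with j | i | i
    · rw [dot_lo] at hk ⊢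
      simp only [bK, neg_eq_zero] at hk
      rw [neg_eq_zero]
      rcases coords_cases hn j with ⟨i, rfl⟩ | rfl | rfl | rfl
      · rw [vec_cz]; exact h1 i hk
      · rw [vec_jX]; exact h6 hk
      · rw [vec_jY]; exact h7 hk
      · rw [vec_jW]; exact h8 hk
    · rw [dot_up hn] at hk ⊢
      rw [vec_cz]
      exact h2 i hk
    · match i with
      | 0 =>
        rw [dot_0 hn] at hk ⊢
        simp only [vec_cz, vec_jX, vec_jY]
        exact h3 hk
      | 1 =>
        rw [dot_1 hn] at hk ⊢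
        simp only [vec_jX, vec_jW]
        exact h4 hk
      | 2 =>
        rw [dot_2 hn] at hk ⊢
        simp only [vec_jY, vec_jW]
        exact h5 hk)
  refine ⟨fun i => ?_, ?_, ?_, ?_⟩
  · have h := congrFun this (cz hn i)
    rwa [vec_cz] at h
  · have h := congrFun this (jX hn)
    rwa [vec_jX] at h
  · have h := congrFun this (jY hn)
    rwa [vec_jY] at h
  · have h := congrFun this (jW hn)
    rwa [vec_jW] at h

include hn in
/-- If the subset sum instance has no solution, all vertices are unimodular. -/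
theorem good (hs : ∀ i, 0 < s i)
    (nosol : ∀ c : Fin N → Bool, (∑ i, if c i then s i else 0) ≠ T) {u : Fin n → ℝ}
    (hu : u ∈ (PP (aK N n) (bK N n s T)).extremePoints ℝ) :
    UnimodularAt (PP (aK N n) (bK N n s T)) u := by
  have hmem : u ∈ PP (aK N n) (bK N n s T) := hu.1
  have hsp := span_of_extreme hu
  rw [unimodularAt_iff hmem (fun k _ => prim hn k) hsp (li hn hs hmem)]
  have HR := rigid_of hn hsp
  obtain ⟨q1, q2, q3, q4, q5⟩ := (mem_iff hn u).1 hmem
  intro d hd
  have i0 : (∑ i, u (cz hn i)) + u (jX hn) + u (jY hn) = 4 * T + 5 →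
      (∑ i, d (cz hn i)) + d (jX hn) + d (jY hn) ∈ ZZ := by
    intro h
    have := hd (Sum.inr (Sum.inr 0)) (by rw [dot_0 hn]; exact h)
    rw [dot_0 hn] at this
    exact mem_ZZ.2 this
  have i1 : u (jX hn) + u (jW hn) = 4 → d (jX hn) + d (jW hn) ∈ ZZ := by
    intro h
    have := hd (Sum.inr (Sum.inr 1)) (by rw [dot_1 hn]; exact h)
    rw [dot_1 hn] at this
    exact mem_ZZ.2 this
  have i2 : u (jY hn) + u (jW hn) = 2 → d (jY hn) + d (jW hn) ∈ ZZ := by
    intro h
    have := hd (Sum.inr (Sum.inr 2)) (by rw [dot_2 hn]; exact h)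
    rw [dot_2 hn] at this
    exact mem_ZZ.2 this
  have ilo : ∀ j, u j = 0 → d j ∈ ZZ := by
    intro j h
    have := hd (Sum.inl j) (by rw [dot_lo]; simp [bK, h])
    rw [dot_lo] at this
    have h2 := ZZ.neg_mem (mem_ZZ.2 this)
    rwa [neg_neg] at h2
  have iz : ∀ i, u (cz hn i) = 0 ∨ u (cz hn i) = 4 * s i → d (cz hn i) ∈ ZZ := by
    rintro i (h | h)
    · exact ilo _ h
    · have := hd (Sum.inr (Sum.inl i)) (by rw [dot_up hn]; exact h)
      rw [dot_up hn] at this
      exact mem_ZZ.2 this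
  have key : (∀ i, d (cz hn i) ∈ ZZ) ∧ d (jX hn) ∈ ZZ ∧ d (jY hn) ∈ ZZ ∧ d (jW hn) ∈ ZZ := by
    by_cases hall : ∀ i, u (cz hn i) = 0 ∨ u (cz hn i) = 4 * s i
    · have hz := fun i => iz i (hall i)
      refine ⟨hz, tightA (q1 _) (q1 _) nosol HR hall _ _ _ (fun h => ?_) i1 i2
        (ilo _) (ilo _) (ilo _)⟩
      have h1 := i0 h
      rw [add_assoc] at h1
      exact ZZ_right h1 (ZZ.sum_mem fun i _ => hz i)
    · push Not at hall
      obtain ⟨k, hk, hk'⟩ := hall
      exact tightB HR hk hk' _ _ _ _ iz i0 i1 i2 (ilo _) (ilo _) (ilo _)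
  intro j
  rw [← mem_ZZ]
  rcases coords_cases hn j with ⟨i, rfl⟩ | rfl | rfl | rfl
  · exact key.1 i
  · exact key.2.1
  · exact key.2.2.1
  · exact key.2.2.2

include hn in
/-- A solution of the subset sum instance yields a vertex that is not unimodular. -/
theorem bad (hs : ∀ i, 0 < s i) (c : Fin N → Bool) (hc : (∑ i, if c i then s i else 0) = T) :
    ∃ u ∈ (PP (aK N n) (bK N n s T)).extremePoints ℝ,
      ¬ UnimodularAt (PP (aK N n) (bK N n s T)) u := by
  set u : Fin n → ℝ := vec (fun i => 4 * ((if c i then s i else 0 : ℕ) : ℝ)) (7 / 2) (3 / 2) (1 / 2)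
    with hu
  have hz : ∀ i, u (cz hn i) = 4 * ((if c i then s i else 0 : ℕ) : ℝ) := fun i => vec_cz hn _ _ _ _ i
  have hX : u (jX hn) = 7 / 2 := vec_jX hn _ _ _ _
  have hY : u (jY hn) = 3 / 2 := vec_jY hn _ _ _ _
  have hW : u (jW hn) = 1 / 2 := vec_jW hn _ _ _ _
  have hsum : ∑ i, u (cz hn i) = 4 * T := by
    simp only [hz]
    rw [← Finset.mul_sum, ← Nat.cast_sum, hc]
  have hmem : u ∈ PP (aK N n) (bK N n s T) := by
    rw [mem_iff hn]
    refine ⟨fun j => ?_, fun i => ?_, ?_, ?_, ?_⟩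
    · rcases coords_cases hn j with ⟨i, rfl⟩ | rfl | rfl | rfl
      · rw [hz]; positivity
      · rw [hX]; norm_num
      · rw [hY]; norm_num
      · rw [hW]; norm_num
    · rw [hz]
      have : (if c i then s i else 0 : ℕ) ≤ s i := by split_ifs <;> simp
      have h2 : ((if c i then s i else 0 : ℕ) : ℝ) ≤ s i := by exact_mod_cast this
      linarith
    · rw [hsum, hX, hY]; linarith
    · rw [hX, hW]; norm_num
    · rw [hY, hW]; norm_num
  have hsp : ∀ d : Fin n → ℝ, (∀ k, dotL (aK N n k) u = bK N n s T k → dotL (aK N n k) d = 0) →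
      d = 0 := by
    intro d hd
    have e0 := hd (Sum.inr (Sum.inr 0)) (by rw [dot_0 hn, hsum, hX, hY]; simp only [bK]; ring)
    have e1 := hd (Sum.inr (Sum.inr 1)) (by rw [dot_1 hn, hX, hW]; simp only [bK]; norm_num)
    have e2 := hd (Sum.inr (Sum.inr 2)) (by rw [dot_2 hn, hY, hW]; simp only [bK]; norm_num)
    rw [dot_0 hn] at e0
    rw [dot_1 hn] at e1
    rw [dot_2 hn] at e2
    have ez : ∀ i, d (cz hn i) = 0 := by
      intro i
      by_cases h : c i = true
      · have := hd (Sum.inr (Sum.inl i)) (by rw [dot_up hn, hz]; simp [bK, h])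
        rwa [dot_up hn] at this
      · have := hd (Sum.inl (cz hn i)) (by rw [dot_lo, hz]; simp [bK, h])
        rw [dot_lo] at this
        linarith
    have e3 : ∑ i, d (cz hn i) = 0 := Finset.sum_eq_zero fun i _ => ez i
    rw [e3] at e0
    have eX : d (jX hn) = 0 := by linarith
    have eY : d (jY hn) = 0 := by linarith
    have eW : d (jW hn) = 0 := by linarith
    funext j
    rcases coords_cases hn j with ⟨i, rfl⟩ | rfl | rfl | rfl
    · exact ez i
    · exact eX
    · exact eY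
    · exact eW
  refine ⟨u, extreme_of_span hmem hsp, ?_⟩
  rw [unimodularAt_iff hmem (fun k _ => prim hn k) hsp (li hn hs hmem)]
  intro hcon
  obtain ⟨m, hm⟩ := hcon (vec 0 (1 / 2) (1 / 2) (1 / 2)) (by
    intro k hk
    rcases k with j | i | i
    · rw [dot_lo] at hk ⊢
      simp only [bK, neg_eq_zero] at hk
      rcases coords_cases hn j with ⟨i, rfl⟩ | rfl | rfl | rfl
      · rw [vec_cz]; exact ⟨0, by simp⟩
      · rw [hX] at hk; norm_num at hk
      · rw [hY] at hk; norm_num at hk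
      · rw [hW] at hk; norm_num at hk
    · rw [dot_up hn, vec_cz]
      exact ⟨0, by simp⟩
    · match i with
      | 0 =>
        rw [dot_0 hn]
        simp only [vec_cz, vec_jX, vec_jY]
        exact ⟨1, by simp; norm_num⟩
      | 1 =>
        rw [dot_1 hn]
        simp only [vec_jX, vec_jW]
        exact ⟨1, by norm_num⟩
      | 2 =>
        rw [dot_2 hn]
        simp only [vec_jY, vec_jW]
        exact ⟨1, by norm_num⟩) (jX hn)
  rw [vec_jX] at hm
  have h1 : ((1 : ℤ) : ℝ) = ((2 * m : ℤ) : ℝ) := by push_cast; linarith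
  rw [Int.cast_inj] at h1
  omega

end Pool.Agent.H25R3.Cones
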