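import Pool.Agent.H25R3.Cones.Good
import Pool.Agent.H671R2.SubsetSum
import Pool.Agent.NPC.Dec

/-!
# The reduction
-/

namespace Pool.Agent.H25R3.Cones

open Pool.Agent.NPC Pool.Agent.NPC.R671.SS

/-- Selections of list entries. -/
theorem sublist_sum_iff : ∀ (l : List ℕ) (T : ℕ), (∃ t : List ℕ, t.Sublist l ∧ t.sum = T) ↔
    ∃ c : Fin l.length → Bool, (∑ i, if c i then l.get i else 0) = T := by
  intro l
  induction l with
  | nil =>
    intro T
    constructor
    · rintro ⟨t, ht, hT⟩
      rw [List.sublist_nil] at ht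
      subst ht
      exact ⟨fun _ => false, by simpa using hT⟩
    · rintro ⟨c, hc⟩
      exact ⟨[], List.Sublist.refl _, by simpa using hc⟩
  | cons a l ih =>
    intro T
    constructor
    · rintro ⟨t, ht, hT⟩
      rcases List.sublist_cons_iff.1 ht with h | ⟨r, rfl, hr⟩
      · obtain ⟨c, hc⟩ := (ih T).1 ⟨t, h, hT⟩
        refine ⟨Fin.cons false c, ?_⟩
        change (∑ i : Fin (l.length + 1), _) = T
        rw [Fin.sum_univ_succ]
        simpa using hc
      · rw [List.sum_cons] at hT
        obtain ⟨c, hc⟩ := (ih r.sum).1 ⟨r, hr, rfl⟩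
        refine ⟨Fin.cons true c, ?_⟩
        change (∑ i : Fin (l.length + 1), _) = T
        rw [Fin.sum_univ_succ]
        simp only [Fin.cons_zero, Fin.cons_succ, if_true, List.get_cons_succ', List.get_cons_zero]
        rw [← hT, ← hc]
    · rintro ⟨c, hc⟩
      have hc' : (∑ i : Fin (l.length + 1), if c i then (a :: l).get i else 0) = T := hc
      rw [Fin.sum_univ_succ] at hc'
      obtain ⟨t, ht, hT⟩ := (ih _).2 ⟨fun i => c i.succ, rfl⟩
      by_cases h : c 0 = true
      · refine ⟨a :: t, ht.cons_cons a, ?_⟩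
        rw [List.sum_cons, hT, ← hc', if_pos h]
        rfl
      · refine ⟨t, ht.cons a, ?_⟩
        rw [hT, ← hc', if_neg h, zero_add]
        rfl

/-- a row of the matrix -/
def row (n : ℕ) (f : ℕ → Bool) : List Bool := (List.range n).map f

theorem row_length (n : ℕ) (f : ℕ → Bool) : (row n f).length = n := by simp [row]

theorem row_getD (n : ℕ) (f : ℕ → Bool) {j : ℕ} (hj : j < n) : (row n f).getD j false = f j := by
  simp [row, List.getD, hj]

/-- the rows of the instance -/
def rows (x : List ℕ × ℕ) : List (List Bool × ℚ) :=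
  (List.range x.1.length).map
    (fun i => (row (x.1.length + 3) (fun j => decide (j = i)), ((4 * x.1.getD i 0 : ℕ) : ℚ))) ++
  [(row (x.1.length + 3) (fun j => decide (j < x.1.length + 2)), ((4 * x.2 + 5 : ℕ) : ℚ)),
   (row (x.1.length + 3) (fun j => decide (j = x.1.length ∨ j = x.1.length + 2)), ((4 : ℕ) : ℚ)),
   (row (x.1.length + 3) (fun j => decide (j = x.1.length + 1 ∨ j = x.1.length + 2)),
      ((2 : ℕ) : ℚ))]

/-- the instance -/
def inst (x : List ℕ × ℕ) : Inst := ((List.range (x.1.length + 3)).map (fun _ => ()), rows x)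

theorem inst_n (x : List ℕ × ℕ) : (inst x).n = x.1.length + 3 := by simp [inst, Inst.n]

theorem mem_rows {x : List ℕ × ℕ} {r : List Bool × ℚ} : r ∈ rows x ↔
    (∃ i < x.1.length, r = (row (x.1.length + 3) (fun j => decide (j = i)),
      ((4 * x.1.getD i 0 : ℕ) : ℚ))) ∨
    r = (row (x.1.length + 3) (fun j => decide (j < x.1.length + 2)), ((4 * x.2 + 5 : ℕ) : ℚ)) ∨
    r = (row (x.1.length + 3) (fun j => decide (j = x.1.length ∨ j = x.1.length + 2)),
      ((4 : ℕ) : ℚ)) ∨
    r = (row (x.1.length + 3) (fun j => decide (j = x.1.length + 1 ∨ j = x.1.length + 2)),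
      ((2 : ℕ) : ℚ)) := by
  simp only [rows, List.mem_append, List.mem_map, List.mem_range, List.mem_cons,
    List.not_mem_nil, or_false]
  constructor
  · rintro (⟨i, hi, rfl⟩ | h)
    · exact Or.inl ⟨i, hi, rfl⟩
    · exact Or.inr h
  · rintro (⟨i, hi, rfl⟩ | h)
    · exact Or.inl ⟨i, hi, rfl⟩
    · exact Or.inr h

theorem valid {x : List ℕ × ℕ} (hx : ∀ a ∈ x.1, 0 < a) : (inst x).Valid := by
  intro r hr
  rw [inst_n]
  rcases mem_rows.1 hr with ⟨i, hi, rfl⟩ | rfl | rfl | rfl
  · refine ⟨row_length _ _, ?_⟩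
    have : 0 < x.1.getD i 0 := by
      rw [List.getD_eq_getElem _ _ hi]
      exact hx _ (List.getElem_mem hi)
    have h2 : 0 < 4 * x.1.getD i 0 := by omega
    change (0 : ℚ) < ((4 * x.1.getD i 0 : ℕ) : ℚ)
    exact_mod_cast h2
  · refine ⟨row_length _ _, ?_⟩
    have h2 : 0 < 4 * x.2 + 5 := by omega
    change (0 : ℚ) < ((4 * x.2 + 5 : ℕ) : ℚ)
    exact_mod_cast h2
  · refine ⟨row_length _ _, ?_⟩
    norm_num
  · refine ⟨row_length _ _, ?_⟩
    norm_num

theorem mem_polyhedron (I : Inst) (v : Fin I.n → ℝ) : v ∈ polyhedron I.A I.b ↔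
    (∀ r ∈ I.2, ∑ j : Fin I.n, (if r.1.getD j false = true then (1 : ℝ) else 0) * v j ≤ (r.2 : ℝ)) ∧
      ∀ j, 0 ≤ v j := by
  simp only [polyhedron, Set.mem_ofPred_eq, Inst.A, Inst.b, Matrix.mulVec, dotProduct]
  refine and_congr_left fun _ => ?_
  constructor
  · intro h r hr
    obtain ⟨i, rfl⟩ := List.get_of_mem hr
    exact h i
  · intro h i
    exact h _ (List.get_mem _ _)

/-- the items of the subset sum instance -/
def items (x : List ℕ × ℕ) : Fin x.1.length → ℕ := fun i => x.1.get i

theorem poly_eq (x : List ℕ × ℕ) : polyhedron (inst x).A (inst x).b =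
    PP (aK x.1.length (inst x).n) (bK x.1.length (inst x).n (items x) x.2) := by
  ext v
  have hn := inst_n x
  have hrow : ∀ f : ℕ → Bool, ∑ j : Fin (inst x).n,
      (if (row (x.1.length + 3) f).getD j false = true then (1 : ℝ) else 0) * v j =
      ∑ j : Fin (inst x).n, (if f j = true then (1 : ℝ) else 0) * v j := by
    intro f
    refine Finset.sum_congr rfl fun j _ => ?_
    rw [row_getD _ _ (by omega)]
  have hup : ∀ i : Fin x.1.length, ∑ j : Fin (inst x).n,
      (if decide ((j : ℕ) = i) = true then (1 : ℝ) else 0) * v j = v (cz hn i) := by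
    intro i
    rw [← dot_up hn i v, dotL_apply]
    refine Finset.sum_congr rfl fun j _ => ?_
    simp only [aK, decide_eq_true_eq]
    split_ifs <;> simp
  have h0 : ∑ j : Fin (inst x).n,
      (if decide ((j : ℕ) < x.1.length + 2) = true then (1 : ℝ) else 0) * v j =
        (∑ i, v (cz hn i)) + v (jX hn) + v (jY hn) := by
    rw [← dot_0 hn v, dotL_apply]
    refine Finset.sum_congr rfl fun j _ => ?_
    simp only [aK, decide_eq_true_eq]
    split_ifs <;> simp
  have h1 : ∑ j : Fin (inst x).n,
      (if decide ((j : ℕ) = x.1.length ∨ (j : ℕ) = x.1.length + 2) = true then (1 : ℝ) else 0) *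
        v j = v (jX hn) + v (jW hn) := by
    rw [← dot_1 hn v, dotL_apply]
    refine Finset.sum_congr rfl fun j _ => ?_
    simp only [aK, decide_eq_true_eq]
    split_ifs <;> simp
  have h2 : ∑ j : Fin (inst x).n,
      (if decide ((j : ℕ) = x.1.length + 1 ∨ (j : ℕ) = x.1.length + 2) = true then (1 : ℝ) else 0) *
        v j = v (jY hn) + v (jW hn) := by
    rw [← dot_2 hn v, dotL_apply]
    refine Finset.sum_congr rfl fun j _ => ?_
    simp only [aK, decide_eq_true_eq]
    split_ifs <;> simp
  have hget : ∀ i : Fin x.1.length, (((4 * x.1.getD i 0 : ℕ) : ℚ) : ℝ) = 4 * (items x i : ℝ) := by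
    intro i
    rw [List.getD_eq_getElem _ _ i.2]
    simp [items]
  rw [mem_polyhedron, mem_iff hn]
  constructor
  · rintro ⟨hr, hp⟩
    refine ⟨hp, fun i => ?_, ?_, ?_, ?_⟩
    · have := hr _ (mem_rows.2 (Or.inl ⟨i, i.2, rfl⟩))
      rw [hrow, hup, hget] at this
      exact this
    · have := hr _ (mem_rows.2 (Or.inr (Or.inl rfl)))
      rw [hrow, h0] at this
      push_cast at this
      exact this
    · have := hr _ (mem_rows.2 (Or.inr (Or.inr (Or.inl rfl))))
      rw [hrow, h1] at this
      push_cast at this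
      exact this
    · have := hr _ (mem_rows.2 (Or.inr (Or.inr (Or.inr rfl))))
      rw [hrow, h2] at this
      push_cast at this
      exact this
  · rintro ⟨hp, q1, q2, q3, q4⟩
    refine ⟨fun r hr => ?_, hp⟩
    rcases mem_rows.1 hr with ⟨i, hi, rfl⟩ | rfl | rfl | rfl
    · have := q1 ⟨i, hi⟩
      rw [← hget, ← hup] at this
      simp only [hrow]
      exact this
    · simp only [hrow]
      rw [h0]
      push_cast
      exact q2
    · simp only [hrow]
      rw [h1]
      push_cast
      exact q3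
    · simp only [hrow]
      rw [h2]
      push_cast
      exact q4

theorem poly_natCast_rat {α : Type} [TEnc α] {f : α → ℕ} (hf : Poly f) :
    Poly (fun a => ((f a : ℕ) : ℚ)) :=
  Poly.of_toT ((Poly.toT' (Poly.pair (Poly.natCast_int hf) (NPC.Poly.const 1))).congr fun a => by
    change toT (((f a : ℕ) : ℤ), 1) = toT ((((f a : ℕ) : ℚ)).num, (((f a : ℕ) : ℚ)).den)
    simp)

attribute [fun_prop] poly_natCast_rat

theorem poly_range3 {α β : Type} [TEnc α] [TEnc β] {l : α → List β} (hl : Poly l) :
    Poly (fun a => List.range ((l a).length + 3)) :=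
  (UPoly.add (UPoly.length hl) (UPoly.const 3)).range

theorem poly_range {α β : Type} [TEnc α] [TEnc β] {l : α → List β} (hl : Poly l) :
    Poly (fun a => List.range ((l a).length)) :=
  (UPoly.length hl).range

attribute [fun_prop] poly_range3 poly_range

theorem poly_inst : Poly inst := by
  unfold inst rows row
  fun_prop

/-- The reduction is correct. -/
theorem correct (x : List ℕ × ℕ) (hx : ∀ a ∈ x.1, 0 < a) :
    SubsetSum x ↔ ¬ UnimodularCones (inst x) := by
  have hn := inst_n x
  have hs : ∀ i, 0 < items x i := fun i => hx _ (List.get_mem _ _)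
  have h1 : SubsetSum x ↔ ∃ c : Fin x.1.length → Bool, (∑ i, if c i then items x i else 0) = x.2 :=
    sublist_sum_iff x.1 x.2
  rw [h1]
  unfold UnimodularCones
  rw [poly_eq]
  constructor
  · rintro ⟨c, hc⟩ ⟨-, hcon⟩
    obtain ⟨u, hu, hu'⟩ := bad hn hs c hc
    exact hu' (hcon u hu)
  · intro h
    by_contra hcon
    push Not at hcon
    exact h ⟨valid hx, fun u hu => good hn hs hcon hu⟩

/-- Deciding whether all vertex cones are unimodular is `coNP`-hard. -/
theorem coNPHard_unimodularCones : CoNPHardP UnimodularCones := by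
  refine HardPr.toCoNPHardP (Pr := fun I => I.Valid) ?_
  refine hardPr_SubsetSum.trans poly_inst (fun x hx => ?_) (fun x hx => ?_)
  · exact valid fun a ha => (hx.1 a ha).1
  · exact correct x fun a ha => (hx.1 a ha).1

end Pool.Agent.H25R3.Cones
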