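import Pool.Agent.H25R3.Cones.Defs

/-!
# Facets at a simple vertex
-/

namespace Pool.Agent.H25R3.Cones

variable {n : ℕ} {K : Type} [Fintype K]

/-- the linear functional given by an integer vector -/
noncomputable def dotL (c : Fin n → ℤ) : (Fin n → ℝ) →ₗ[ℝ] ℝ :=
  ∑ j, (c j : ℝ) • LinearMap.proj j

theorem dotL_apply (c : Fin n → ℤ) (x : Fin n → ℝ) : dotL c x = ∑ j, (c j : ℝ) * x j := by
  simp [dotL]

/-- a polyhedron given by integer inequalities -/
def PP (a : K → Fin n → ℤ) (β : K → ℝ) : Set (Fin n → ℝ) := {x | ∀ k, dotL (a k) x ≤ β k}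

variable {a : K → Fin n → ℤ} {β : K → ℝ} {u : Fin n → ℝ}

theorem exists_eps (hu : u ∈ PP a β) (d : Fin n → ℝ)
    (hd : ∀ k, dotL (a k) u = β k → dotL (a k) d ≤ 0) :
    ∃ ε : ℝ, 0 < ε ∧ ∀ t, 0 ≤ t → t ≤ ε → u + t • d ∈ PP a β := by
  have h1 : ∀ k, ∃ ε : ℝ, 0 < ε ∧ ∀ t, 0 ≤ t → t ≤ ε → dotL (a k) (u + t • d) ≤ β k := by
    intro k
    by_cases hk : dotL (a k) u = β k
    · refine ⟨1, one_pos, fun t ht _ => ?_⟩
      have := mul_nonpos_of_nonneg_of_nonpos ht (hd k hk)
      rw [map_add, map_smul, smul_eq_mul]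
      linarith
    · have hlt : dotL (a k) u < β k := lt_of_le_of_ne (hu k) hk
      have hpos : 0 < |dotL (a k) d| + 1 := by positivity
      refine ⟨(β k - dotL (a k) u) / (|dotL (a k) d| + 1), div_pos (by linarith) hpos,
        fun t ht ht' => ?_⟩
      rw [map_add, map_smul, smul_eq_mul]
      have h2 : t * dotL (a k) d ≤ t * (|dotL (a k) d| + 1) :=
        mul_le_mul_of_nonneg_left ((le_abs_self _).trans (by linarith)) ht
      have h3 : t * (|dotL (a k) d| + 1) ≤ β k - dotL (a k) u := by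
        rwa [le_div_iff₀ hpos] at ht'
      linarith
  choose e he he' using h1
  rcases isEmpty_or_nonempty K with hK | hK
  · exact ⟨1, one_pos, fun t _ _ k => (hK.false k).elim⟩
  · obtain ⟨k0, hk0⟩ := Finite.exists_min e
    exact ⟨e k0, he k0, fun t ht ht' k => he' k t ht (ht'.trans (hk0 k))⟩

theorem span_of_extreme (hu : u ∈ (PP a β).extremePoints ℝ) (d : Fin n → ℝ)
    (hd : ∀ k, dotL (a k) u = β k → dotL (a k) d = 0) : d = 0 := by
  rw [mem_extremePoints] at hu
  obtain ⟨ε1, h1, h1'⟩ := exists_eps hu.1 d (fun k hk => (hd k hk).le)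
  obtain ⟨ε2, h2, h2'⟩ := exists_eps hu.1 (-d) (fun k hk => by rw [map_neg, hd k hk, neg_zero])
  have hm : 0 < min ε1 ε2 := lt_min h1 h2
  have m1 := h1' (min ε1 ε2) hm.le (min_le_left _ _)
  have m2 := h2' (min ε1 ε2) hm.le (min_le_right _ _)
  have := (hu.2 _ m1 _ m2 ⟨1 / 2, 1 / 2, by norm_num, by norm_num, by norm_num, by
    ext j
    simp only [Pi.add_apply, Pi.smul_apply, smul_eq_mul, Pi.neg_apply]
    ring⟩).1
  have h3 : min ε1 ε2 • d = 0 := by
    rw [add_eq_left] at this
    exact this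
  rcases smul_eq_zero.1 h3 with h | h
  · exact absurd h hm.ne'
  · exact h

theorem extreme_of_span (hu : u ∈ PP a β)
    (hs : ∀ d : Fin n → ℝ, (∀ k, dotL (a k) u = β k → dotL (a k) d = 0) → d = 0) :
    u ∈ (PP a β).extremePoints ℝ := by
  rw [mem_extremePoints]
  refine ⟨hu, fun x hx y hy hxy => ?_⟩
  obtain ⟨s, t, hs0, ht0, hst, hxyu⟩ := hxy
  have h1 : ∀ k, dotL (a k) u = β k → dotL (a k) x = β k ∧ dotL (a k) y = β k := by
    intro k hk
    have h2 : s * dotL (a k) x + t * dotL (a k) y = β k := by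
      rw [← hk, ← hxyu, map_add, map_smul, map_smul, smul_eq_mul, smul_eq_mul]
    have h3 := hx k
    have h4 := hy k
    have ht : t = 1 - s := by linarith
    subst ht
    constructor
    · by_contra hne
      have hlt : dotL (a k) x < β k := lt_of_le_of_ne h3 hne
      nlinarith
    · by_contra hne
      have hlt : dotL (a k) y < β k := lt_of_le_of_ne h4 hne
      nlinarith
  have h5 : x - u = 0 := hs _ fun k hk => by rw [map_sub, (h1 k hk).1, hk, sub_self]
  have h6 : y - u = 0 := hs _ fun k hk => by rw [map_sub, (h1 k hk).2, hk, sub_self]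
  exact ⟨sub_eq_zero.1 h5, sub_eq_zero.1 h6⟩

/-! ### The facets at a simple vertex -/

section Facets

variable (hu : u ∈ PP a β) (e : Fin n ≃ {k // dotL (a k) u = β k})
  (hs : ∀ d : Fin n → ℝ, (∀ k, dotL (a k) u = β k → dotL (a k) d = 0) → d = 0)

include hs in
theorem exists_dual : ∃ d : Fin n → Fin n → ℝ, ∀ i j,
    dotL (a (e i)) (d j) = if i = j then -1 else 0 := by
  let Φ : (Fin n → ℝ) →ₗ[ℝ] (Fin n → ℝ) := LinearMap.pi fun i => dotL (a (e i))
  have hinj : Function.Injective Φ := by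
    rw [← LinearMap.ker_eq_bot, LinearMap.ker_eq_bot']
    intro v hv
    refine hs v fun k hk => ?_
    have := congrFun hv (e.symm ⟨k, hk⟩)
    simpa [Φ] using this
  have hsurj := LinearMap.injective_iff_surjective.1 hinj
  choose d hd using fun j => hsurj (-(Pi.single j 1))
  refine ⟨d, fun i j => ?_⟩
  have := congrFun (hd j) i
  simp only [Φ, LinearMap.pi_apply, Pi.neg_apply] at this
  rw [this]
  by_cases h : i = j
  · subst h; simp
  · simp [h]

include hs in
theorem decomp {d : Fin n → Fin n → ℝ} (hd : ∀ i j, dotL (a (e i)) (d j) = if i = j then -1 else 0)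
    (v : Fin n → ℝ) : v = ∑ j, (-(dotL (a (e j)) v)) • d j := by
  rw [← sub_eq_zero]
  refine hs _ fun k hk => ?_
  obtain ⟨i, hi⟩ : ∃ i, (e i : K) = k := ⟨e.symm ⟨k, hk⟩, by simp⟩
  subst hi
  rw [map_sub, map_sum]
  simp only [map_smul, hd, smul_eq_mul]
  simp

/-- the face given by a tight constraint -/
def face (i : Fin n) : Set (Fin n → ℝ) := {x | x ∈ PP a β ∧ dotL (a (e i)) x = β (e i)}

include hu in
theorem mem_face (i : Fin n) : u ∈ face e i := ⟨hu, (e i).2⟩

include hu hs in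
theorem vectorSpan_face (i : Fin n) :
    vectorSpan ℝ (face e i) = LinearMap.ker (dotL (a (e i))) := by
  obtain ⟨d, hd⟩ := exists_dual e hs
  apply le_antisymm
  · rw [vectorSpan_def, Submodule.span_le]
    rintro _ ⟨x, hx, y, hy, rfl⟩
    simp only [vsub_eq_sub, SetLike.mem_coe, LinearMap.mem_ker, map_sub, hx.2, hy.2, sub_self]
  · intro v hv
    rw [LinearMap.mem_ker] at hv
    rw [decomp e hs hd v]
    refine Submodule.sum_mem _ fun j _ => ?_
    by_cases hij : i = j
    · subst hij; rw [hv]; simp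
    · refine Submodule.smul_mem _ _ ?_
      obtain ⟨ε, hε, hε'⟩ := exists_eps hu (d j) (fun k hk => by
        obtain ⟨i', hi'⟩ : ∃ i, (e i : K) = k := ⟨e.symm ⟨k, hk⟩, by simp⟩
        subst hi'
        rw [hd]; split_ifs <;> norm_num)
      have h1 : u + ε • d j ∈ face e i := ⟨hε' ε hε.le le_rfl, by
        rw [map_add, map_smul, hd, if_neg hij, smul_zero, add_zero]; exact (e i).2⟩
      have h2 := vsub_mem_vectorSpan ℝ h1 (mem_face hu e i)
      rw [vsub_eq_sub, add_sub_cancel_left] at h2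
      have h3 := Submodule.smul_mem _ ε⁻¹ h2
      rwa [smul_smul, inv_mul_cancel₀ hε.ne', one_smul] at h3

include hs in
theorem finrank_ker (i : Fin n) :
    Module.finrank ℝ (LinearMap.ker (dotL (a (e i)))) + 1 = n := by
  obtain ⟨d, hd⟩ := exists_dual e hs
  have h1 := LinearMap.finrank_range_add_finrank_ker (dotL (a (e i)))
  have h2 : LinearMap.range (dotL (a (e i))) = ⊤ := by
    rw [LinearMap.range_eq_top]
    intro t
    exact ⟨(-t) • d i, by rw [map_smul, hd, if_pos rfl, smul_eq_mul]; ring⟩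
  rw [h2, finrank_top, Module.finrank_self, Module.finrank_fin_fun] at h1
  omega

include hu hs in
theorem isFacet_face (i : Fin n) : IsFacet (PP a β) (face e i) := by
  refine ⟨⟨u, mem_face hu e i⟩, fun _ => ⟨LinearMap.toContinuousLinearMap (dotL (a (e i))), ?_⟩,
    ?_⟩
  · ext x
    simp only [face, Set.mem_setOf_eq, LinearMap.coe_toContinuousLinearMap']
    constructor
    · rintro ⟨h1, h2⟩
      exact ⟨h1, fun y hy => by rw [h2]; exact hy _⟩
    · rintro ⟨h1, h2⟩
      refine ⟨h1, le_antisymm (h1 _) ?_⟩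
      have := h2 u hu
      rwa [(e i).2] at this
  · rw [vectorSpan_face hu e hs, finrank_ker e hs]

include hu hs in
theorem face_injective : Function.Injective (face e) := by
  intro i j hij
  obtain ⟨d, hd⟩ := exists_dual e hs
  by_contra hne
  have h1 := vectorSpan_face hu e hs i
  rw [hij, vectorSpan_face hu e hs j] at h1
  have h2 : d i ∈ LinearMap.ker (dotL (a (e j))) := by
    rw [LinearMap.mem_ker, hd, if_neg (Ne.symm hne)]
  rw [h1, LinearMap.mem_ker, hd, if_pos rfl] at h2
  norm_num at h2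

include hu hs in
theorem face_surjective {F : Set (Fin n → ℝ)} (hF : IsFacet (PP a β) F) (huF : u ∈ F) :
    ∃ i, F = face e i := by
  obtain ⟨d, hd⟩ := exists_dual e hs
  obtain ⟨hne, hexp, hdim⟩ := hF
  obtain ⟨l, hl⟩ := hexp hne
  have hlu : ∀ y ∈ PP a β, l y ≤ l u := by
    have := huF
    rw [hl] at this
    exact this.2
  have hFl : ∀ x, x ∈ F ↔ x ∈ PP a β ∧ l x = l u := by
    intro x
    rw [hl]
    constructor
    · rintro ⟨h1, h2⟩
      exact ⟨h1, le_antisymm (hlu x h1) (h2 u hu)⟩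
    · rintro ⟨h1, h2⟩
      exact ⟨h1, fun y hy => by rw [h2]; exact hlu y hy⟩
  have hdj : ∀ j, ∃ ε : ℝ, 0 < ε ∧ u + ε • d j ∈ PP a β := by
    intro j
    obtain ⟨ε, hε, hε'⟩ := exists_eps hu (d j) (fun k hk => by
        obtain ⟨i', hi'⟩ : ∃ i, (e i : K) = k := ⟨e.symm ⟨k, hk⟩, by simp⟩
        subst hi'
        rw [hd]; split_ifs <;> norm_num)
    exact ⟨ε, hε, hε' ε hε.le le_rfl⟩
  have hc : ∀ j, l (d j) ≤ 0 := by
    intro j
    obtain ⟨ε, hε, hε'⟩ := hdj j
    have := hlu _ hε'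
    rw [map_add, map_smul, smul_eq_mul] at this
    by_contra hcon
    push Not at hcon
    have := mul_pos hε hcon
    linarith
  have hexpand : ∀ x, l u - l x = ∑ j, (-(l (d j))) * (β (e j) - dotL (a (e j)) x) := by
    intro x
    have h1 := decomp e hs hd (u - x)
    have h2 : l u - l x = l (u - x) := by rw [map_sub]
    rw [h2]
    conv_lhs => rw [h1]
    rw [map_sum]
    refine Finset.sum_congr rfl fun j _ => ?_
    rw [map_smul, smul_eq_mul, map_sub, (e j).2]
    ring
  have hterm : ∀ x ∈ PP a β, ∀ j, 0 ≤ (-(l (d j))) * (β (e j) - dotL (a (e j)) x) := by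
    intro x hx j
    exact mul_nonneg (by linarith [hc j]) (by linarith [hx (e j)])
  have hF2 : ∀ x, x ∈ F ↔ x ∈ PP a β ∧ ∀ j, l (d j) ≠ 0 → dotL (a (e j)) x = β (e j) := by
    intro x
    rw [hFl]
    constructor
    · rintro ⟨h1, h2⟩
      refine ⟨h1, fun j hj => ?_⟩
      have h3 := hexpand x
      rw [h2, sub_self] at h3
      have h4 := (Finset.sum_eq_zero_iff_of_nonneg (fun j _ => hterm x h1 j)).1 h3.symm j
        (Finset.mem_univ j)
      rcases mul_eq_zero.1 h4 with h | h
      · exact absurd (by linarith) hj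
      · linarith
    · rintro ⟨h1, h2⟩
      refine ⟨h1, ?_⟩
      have h3 := hexpand x
      have h4 : ∑ j, (-(l (d j))) * (β (e j) - dotL (a (e j)) x) = 0 := by
        refine Finset.sum_eq_zero fun j _ => ?_
        by_cases hj : l (d j) = 0
        · rw [hj]; ring
        · rw [h2 j hj]; ring
      linarith
  -- there is an index with nonzero coefficient
  have hex : ∃ i, l (d i) ≠ 0 := by
    by_contra hcon
    push Not at hcon
    have h1 : vectorSpan ℝ F = ⊤ := by
      rw [eq_top_iff]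
      intro v _
      rw [decomp e hs hd v]
      refine Submodule.sum_mem _ fun j _ => Submodule.smul_mem _ _ ?_
      obtain ⟨ε, hε, hε'⟩ := hdj j
      have h1 : u + ε • d j ∈ F := (hF2 _).2 ⟨hε', fun j hj => absurd (hcon j) hj⟩
      have h2 := vsub_mem_vectorSpan ℝ h1 huF
      rw [vsub_eq_sub, add_sub_cancel_left] at h2
      have h3 := Submodule.smul_mem _ ε⁻¹ h2
      rwa [smul_smul, inv_mul_cancel₀ hε.ne', one_smul] at h3
    rw [h1, finrank_top, Module.finrank_fin_fun] at hdim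
    omega
  obtain ⟨i, hi⟩ := hex
  have huniq : ∀ j, l (d j) ≠ 0 → j = i := by
    intro j hj
    by_contra hne
    have h1 : vectorSpan ℝ F ≤ LinearMap.ker (dotL (a (e i))) ⊓ LinearMap.ker (dotL (a (e j))) := by
      rw [vectorSpan_def, Submodule.span_le]
      rintro _ ⟨x, hx, y, hy, rfl⟩
      rw [hF2] at hx hy
      simp only [vsub_eq_sub, SetLike.mem_coe, Submodule.mem_inf, LinearMap.mem_ker, map_sub,
        hx.2 i hi, hy.2 i hi, hx.2 j hj, hy.2 j hj, sub_self, and_self]
    have h2 : LinearMap.ker (dotL (a (e i))) ⊓ LinearMap.ker (dotL (a (e j))) <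
        LinearMap.ker (dotL (a (e i))) := by
      refine lt_of_le_of_ne inf_le_left fun heq => ?_
      have h3 : d j ∈ LinearMap.ker (dotL (a (e i))) := by
        rw [LinearMap.mem_ker, hd, if_neg (Ne.symm hne)]
      rw [← heq, Submodule.mem_inf, LinearMap.mem_ker, LinearMap.mem_ker, hd j j, if_pos rfl] at h3
      norm_num at h3
    have h3 := Submodule.finrank_lt_finrank_of_lt (h1.trans_lt h2)
    have h4 := finrank_ker e hs i
    omega
  refine ⟨i, ?_⟩
  ext x
  rw [hF2]
  constructor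
  · rintro ⟨h1, h2⟩
    exact ⟨h1, h2 i hi⟩
  · rintro ⟨h1, h2⟩
    exact ⟨h1, fun j hj => by rw [huniq j hj]; exact h2⟩

end Facets

end Pool.Agent.H25R3.Cones
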