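import Pool.Agent.H25R3.Cones.Uni

/-!
# The polyhedron of a triangle with pendant edges
-/

namespace Pool.Agent.H25R3.Cones

/-- coordinates -/
def cz {N n : ℕ} (hn : n = N + 3) (i : Fin N) : Fin n := ⟨i, by omega⟩
/-- coordinate of the first edge of the triangle -/
def jX {N n : ℕ} (hn : n = N + 3) : Fin n := ⟨N, by omega⟩
/-- coordinate of the second edge of the triangle -/
def jY {N n : ℕ} (hn : n = N + 3) : Fin n := ⟨N + 1, by omega⟩
/-- coordinate of the third edge of the triangle -/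
def jW {N n : ℕ} (hn : n = N + 3) : Fin n := ⟨N + 2, by omega⟩

section

variable {N n : ℕ} (hn : n = N + 3)

theorem sum_coords {M : Type} [AddCommMonoid M] (f : Fin n → M) :
    ∑ j, f j = (∑ i, f (cz hn i)) + f (jX hn) + f (jY hn) + f (jW hn) := by
  subst hn
  rw [Fin.sum_univ_castSucc, Fin.sum_univ_castSucc, Fin.sum_univ_castSucc]
  rfl

theorem coords_cases (j : Fin n) : (∃ i, j = cz hn i) ∨ j = jX hn ∨ j = jY hn ∨ j = jW hn := by
  obtain ⟨j, hj⟩ := j
  by_cases h : j < N
  · exact Or.inl ⟨⟨j, h⟩, rfl⟩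
  · have : j = N ∨ j = N + 1 ∨ j = N + 2 := by omega
    rcases this with rfl | rfl | rfl
    · exact Or.inr (Or.inl rfl)
    · exact Or.inr (Or.inr (Or.inl rfl))
    · exact Or.inr (Or.inr (Or.inr rfl))

/-- a vector from its components -/
def vec (dz : Fin N → ℝ) (dX dY dW : ℝ) : Fin n → ℝ := fun j =>
  if h : (j : ℕ) < N then dz ⟨j, h⟩ else if (j : ℕ) = N then dX else if (j : ℕ) = N + 1 then dY
  else dW

@[simp] theorem vec_cz (dz : Fin N → ℝ) (dX dY dW : ℝ) (i : Fin N) :
    (vec dz dX dY dW : Fin n → ℝ) (cz hn i) = dz i := by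
  simp [vec, cz]
@[simp] theorem vec_jX (dz : Fin N → ℝ) (dX dY dW : ℝ) :
    (vec dz dX dY dW : Fin n → ℝ) (jX hn) = dX := by
  simp [vec, jX]
@[simp] theorem vec_jY (dz : Fin N → ℝ) (dX dY dW : ℝ) :
    (vec dz dX dY dW : Fin n → ℝ) (jY hn) = dY := by
  simp [vec, jY]
@[simp] theorem vec_jW (dz : Fin N → ℝ) (dX dY dW : ℝ) :
    (vec dz dX dY dW : Fin n → ℝ) (jW hn) = dW := by
  simp [vec, jW]

/-- the constraints -/
abbrev KK (N n : ℕ) := Fin n ⊕ Fin N ⊕ Fin 3

/-- the normal vectors -/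
def aK (N n : ℕ) : KK N n → Fin n → ℤ
  | Sum.inl j => fun i => if i = j then -1 else 0
  | Sum.inr (Sum.inl i) => fun j => if (j : ℕ) = i then 1 else 0
  | Sum.inr (Sum.inr 0) => fun j => if (j : ℕ) < N + 2 then 1 else 0
  | Sum.inr (Sum.inr 1) => fun j => if (j : ℕ) = N ∨ (j : ℕ) = N + 2 then 1 else 0
  | Sum.inr (Sum.inr 2) => fun j => if (j : ℕ) = N + 1 ∨ (j : ℕ) = N + 2 then 1 else 0

/-- the right-hand sides -/
def bK (N n : ℕ) (s : Fin N → ℕ) (T : ℕ) : KK N n → ℝ
  | Sum.inl _ => 0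
  | Sum.inr (Sum.inl i) => 4 * s i
  | Sum.inr (Sum.inr 0) => 4 * T + 5
  | Sum.inr (Sum.inr 1) => 4
  | Sum.inr (Sum.inr 2) => 2

theorem dot_lo (j : Fin n) (x : Fin n → ℝ) : dotL (aK N n (Sum.inl j)) x = - x j := by
  rw [dotL_apply, Finset.sum_eq_single j]
  · simp [aK]
  · intro i _ hij
    simp [aK, hij]
  · simp

include hn in
theorem dot_up (i : Fin N) (x : Fin n → ℝ) :
    dotL (aK N n (Sum.inr (Sum.inl i))) x = x (cz hn i) := by
  rw [dotL_apply, Finset.sum_eq_single (cz hn i)]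
  · simp [aK, cz]
  · intro j _ hij
    have : (j : ℕ) ≠ i := fun h => hij (Fin.ext h)
    simp [aK, this]
  · simp

theorem dot_0 (x : Fin n → ℝ) :
    dotL (aK N n (Sum.inr (Sum.inr 0))) x = (∑ i, x (cz hn i)) + x (jX hn) + x (jY hn) := by
  rw [dotL_apply, sum_coords hn]
  have h1 : ∀ i : Fin N, (i : ℕ) < N + 2 := fun i => by omega
  simp [aK, cz, jX, jY, jW, h1]

theorem dot_1 (x : Fin n → ℝ) :
    dotL (aK N n (Sum.inr (Sum.inr 1))) x = x (jX hn) + x (jW hn) := by
  rw [dotL_apply, sum_coords hn]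
  have h1 : ∀ i : Fin N, ¬ ((i : ℕ) = N ∨ (i : ℕ) = N + 2) := fun i => by omega
  simp [aK, cz, jX, jY, jW, h1]

theorem dot_2 (x : Fin n → ℝ) :
    dotL (aK N n (Sum.inr (Sum.inr 2))) x = x (jY hn) + x (jW hn) := by
  rw [dotL_apply, sum_coords hn]
  have h1 : ∀ i : Fin N, ¬ ((i : ℕ) = N + 1 ∨ (i : ℕ) = N + 2) := fun i => by omega
  simp [aK, cz, jX, jY, jW, h1]

theorem gcd_eq_one {c : Fin n → ℤ} (h : ∃ j, c j = 1 ∨ c j = -1) : Finset.univ.gcd c = 1 := by
  obtain ⟨j, hj⟩ := h
  have h1 : Finset.univ.gcd c ∣ c j := Finset.gcd_dvd (Finset.mem_univ j)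
  have h2 : Finset.univ.gcd c ∣ 1 := by
    rcases hj with h | h
    · rwa [h] at h1
    · rw [h] at h1; exact (dvd_neg.1 h1)
  have h3 : 0 ≤ Finset.univ.gcd c := Finset.Int.finsetGcd_nonneg
  exact Int.eq_one_of_dvd_one h3 h2

include hn in
theorem prim (k : KK N n) : Finset.univ.gcd (aK N n k) = 1 := by
  apply gcd_eq_one
  rcases k with j | i | i
  · exact ⟨j, by simp [aK]⟩
  · exact ⟨cz hn i, by simp [aK, cz]⟩
  · match i with
    | 0 => exact ⟨jX hn, by simp [aK, jX]⟩
    | 1 => exact ⟨jX hn, by simp [aK, jX]⟩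
    | 2 => exact ⟨jY hn, by simp [aK, jY]⟩

variable {s : Fin N → ℕ} {T : ℕ}

/-- membership in the polyhedron -/
theorem mem_iff (x : Fin n → ℝ) : x ∈ PP (aK N n) (bK N n s T) ↔
    ((∀ j, 0 ≤ x j) ∧ (∀ i, x (cz hn i) ≤ 4 * s i) ∧
      (∑ i, x (cz hn i)) + x (jX hn) + x (jY hn) ≤ 4 * T + 5 ∧ x (jX hn) + x (jW hn) ≤ 4 ∧
      x (jY hn) + x (jW hn) ≤ 2) := by
  constructor
  · intro h
    refine ⟨fun j => ?_, fun i => ?_, ?_, ?_, ?_⟩
    · have := h (Sum.inl j)
      rw [dot_lo] at this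
      simp only [bK] at this
      linarith
    · have := h (Sum.inr (Sum.inl i))
      rwa [dot_up hn] at this
    · have := h (Sum.inr (Sum.inr 0))
      rwa [dot_0 hn] at this
    · have := h (Sum.inr (Sum.inr 1))
      rwa [dot_1 hn] at this
    · have := h (Sum.inr (Sum.inr 2))
      rwa [dot_2 hn] at this
  · rintro ⟨h1, h2, h3, h4, h5⟩ k
    rcases k with j | i | i
    · rw [dot_lo]
      simp only [bK]
      linarith [h1 j]
    · rw [dot_up hn]
      exact h2 i
    · match i with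
      | 0 => rw [dot_0 hn]; exact h3
      | 1 => rw [dot_1 hn]; exact h4
      | 2 => rw [dot_2 hn]; exact h5

/-! ### Linear independence of the tight constraints -/

theorem sum_tight {z : Fin N → ℝ} (hz : ∀ i, z i = 0 ∨ z i = 4 * s i) :
    ∃ c : Fin N → Bool, (∀ i, z i = 4 * ((if c i then s i else 0 : ℕ) : ℝ)) := by
  refine ⟨fun i => decide (z i = 4 * s i), fun i => ?_⟩
  by_cases h : z i = 4 * s i
  · simp [h]
  · simp only [h, decide_false]
    rcases hz i with h' | h'
    · simp [h']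
    · exact absurd h' h

theorem num_zero {z : Fin N → ℝ} {X Y W : ℝ} (hs : ∀ i, 0 < s i)
    (hX : 0 ≤ X) (hY : 0 ≤ Y) (hW : 0 ≤ W) (h2 : Y + W ≤ 2)
    {Glo Gup : Fin N → ℝ} {G0 G1 G2 GX GY GW : ℝ}
    (slo : ∀ i, Glo i ≠ 0 → z i = 0) (sup : ∀ i, Gup i ≠ 0 → z i = 4 * s i)
    (s0 : G0 ≠ 0 → (∑ i, z i) + X + Y = 4 * T + 5) (s1 : G1 ≠ 0 → X + W = 4)
    (s2 : G2 ≠ 0 → Y + W = 2) (sX : GX ≠ 0 → X = 0) (sY : GY ≠ 0 → Y = 0) (sW : GW ≠ 0 → W = 0)
    (ez : ∀ i, -Glo i + Gup i + G0 = 0) (eX : -GX + G0 + G1 = 0) (eY : -GY + G0 + G2 = 0)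
    (eW : -GW + G1 + G2 = 0) :
    (∀ i, Glo i = 0) ∧ (∀ i, Gup i = 0) ∧ G0 = 0 ∧ G1 = 0 ∧ G2 = 0 ∧ GX = 0 ∧ GY = 0 ∧ GW = 0 := by
  have hG0 : G0 = 0 := by
    by_contra h0
    have hz : ∀ i, z i = 0 ∨ z i = 4 * s i := by
      intro i
      by_cases h : Glo i = 0
      · right
        apply sup
        intro h'
        apply h0
        have := ez i
        rw [h, h'] at this
        linarith
      · exact Or.inl (slo i h)
    obtain ⟨c, hc⟩ := sum_tight hz
    have hsum : ∑ i, z i = 4 * (((∑ i, if c i then s i else 0 : ℕ) : ℕ) : ℝ) := by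
      rw [Nat.cast_sum, Finset.mul_sum]
      exact Finset.sum_congr rfl fun i _ => hc i
    obtain ⟨m, hm⟩ : ∃ m : ℕ, ∑ i, z i = 4 * (m : ℝ) := ⟨_, hsum⟩
    have hpar := s0 h0
    rw [hm] at hpar
    have key : ∀ r : ℕ, X + Y = r → (r : ℤ) = 4 * ((T : ℤ) - m) + 5 := by
      intro r hr
      have : (r : ℝ) = 4 * ((T : ℝ) - m) + 5 := by rw [← hr]; linarith
      exact_mod_cast this
    by_cases h1 : G1 = 0
    · by_cases h2' : G2 = 0
      · have hX0 := sX (by intro h; apply h0; rw [h, h1] at eX; linarith)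
        have hY0 := sY (by intro h; apply h0; rw [h, h2'] at eY; linarith)
        have := key 0 (by rw [hX0, hY0]; simp)
        omega
      · have hX0 := sX (by intro h; apply h0; rw [h, h1] at eX; linarith)
        have hW0 := sW (by intro h; apply h2'; rw [h, h1] at eW; linarith)
        have hS2 := s2 h2'
        have := key 2 (by push_cast; linarith)
        omega
    · by_cases h2' : G2 = 0
      · have hY0 := sY (by intro h; apply h0; rw [h, h2'] at eY; linarith)
        have hW0 := sW (by intro h; apply h1; rw [h, h2'] at eW; linarith)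
        have hS1 := s1 h1
        have := key 4 (by push_cast; linarith)
        omega
      · have hS1 := s1 h1
        have hS2 := s2 h2'
        by_cases hGW : GW = 0
        · by_cases hGX : GX = 0
          · have hY0 := sY (by intro h; apply h0; rw [h] at eY; rw [hGX] at eX
                               rw [hGW] at eW; linarith)
            have := key 2 (by push_cast; linarith)
            omega
          · have hX0 := sX hGX
            linarith
        · have hW0 := sW hGW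
          have := key 6 (by push_cast; linarith)
          omega
  subst hG0
  have hG1 : G1 = 0 := by
    by_contra h1
    have hX0 := sX (by intro h; apply h1; rw [h] at eX; linarith)
    have hS1 := s1 h1
    linarith
  subst hG1
  have hG2 : G2 = 0 := by
    by_contra h2'
    have hY0 := sY (by intro h; apply h2'; rw [h] at eY; linarith)
    have hS2 := s2 h2'
    have hW0 := sW (by intro h; apply h2'; rw [h] at eW; linarith)
    linarith
  subst hG2
  have hlo : ∀ i, Glo i = 0 := by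
    intro i
    by_contra h
    have h1 := slo i h
    have h3 := sup i (by intro h'; apply h; have := ez i; rw [h'] at this; linarith)
    rw [h1] at h3
    have h4 : (0 : ℝ) < s i := by exact_mod_cast hs i
    linarith
  refine ⟨hlo, fun i => ?_, rfl, rfl, rfl, ?_, ?_, ?_⟩
  · have := ez i
    rw [hlo i] at this
    linarith
  all_goals linarith

include hn in
theorem li {u : Fin n → ℝ} (hs : ∀ i, 0 < s i) (hu : u ∈ PP (aK N n) (bK N n s T)) :
    LinearIndependent ℝ (fun (k : {k // dotL (aK N n k) u = bK N n s T k}) (j : Fin n) =>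
      ((aK N n k j : ℤ) : ℝ)) := by
  classical
  rw [Fintype.linearIndependent_iff]
  intro g hg
  obtain ⟨G, hG⟩ : ∃ G : KK N n → ℝ, ∀ k, G k = if h : dotL (aK N n k) u = bK N n s T k
      then g ⟨k, h⟩ else 0 := ⟨fun k => if h : dotL (aK N n k) u = bK N n s T k
      then g ⟨k, h⟩ else 0, fun _ => rfl⟩
  have hG1 : ∀ k, G k ≠ 0 → dotL (aK N n k) u = bK N n s T k := by
    intro k hk
    by_contra hcon
    apply hk
    rw [hG, dif_neg hcon]
  have hG2 : ∀ j, ∑ k, G k * (aK N n k j : ℝ) = 0 := by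
    intro j
    have h1 := congrFun hg j
    rw [Finset.sum_apply] at h1
    simp only [Pi.smul_apply, smul_eq_mul, Pi.zero_apply] at h1
    rw [← h1]
    have h2 : ∑ k, G k * (aK N n k j : ℝ) =
        ∑ k ∈ Finset.univ.filter (fun k => dotL (aK N n k) u = bK N n s T k),
          G k * (aK N n k j : ℝ) := by
      rw [Finset.sum_filter]
      refine Finset.sum_congr rfl fun k _ => ?_
      split_ifs with h
      · rfl
      · rw [hG, dif_neg h, zero_mul]
    rw [h2]
    rw [Finset.sum_subtype (p := fun k => dotL (aK N n k) u = bK N n s T k) _ (by simp)]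
    refine Finset.sum_congr rfl fun k _ => ?_
    rw [hG, dif_pos k.2]
  have hG3 : ∀ j, -G (Sum.inl j) + (∑ i, G (Sum.inr (Sum.inl i)) *
      ((aK N n (Sum.inr (Sum.inl i)) j : ℤ) : ℝ)) +
      (G (Sum.inr (Sum.inr 0)) * ((aK N n (Sum.inr (Sum.inr 0)) j : ℤ) : ℝ) +
      G (Sum.inr (Sum.inr 1)) * ((aK N n (Sum.inr (Sum.inr 1)) j : ℤ) : ℝ) +
      G (Sum.inr (Sum.inr 2)) * ((aK N n (Sum.inr (Sum.inr 2)) j : ℤ) : ℝ)) = 0 := by
    intro j
    have h1 := hG2 j
    rw [Fintype.sum_sum_type, Fintype.sum_sum_type, Fin.sum_univ_three] at h1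
    have h2 : ∑ i, G (Sum.inl i) * ((aK N n (Sum.inl i) j : ℤ) : ℝ) = -G (Sum.inl j) := by
      rw [Finset.sum_eq_single j]
      · simp [aK]
      · intro i _ hij
        simp [aK, Ne.symm hij]
      · simp
    rw [h2] at h1
    linarith
  have hz1 : ∀ i : Fin N, ∑ i', G (Sum.inr (Sum.inl i')) *
      ((aK N n (Sum.inr (Sum.inl i')) (cz hn i) : ℤ) : ℝ) = G (Sum.inr (Sum.inl i)) := by
    intro i
    rw [Finset.sum_eq_single i]
    · simp [aK, cz]
    · intro i' _ hne
      have : (i : ℕ) ≠ i' := fun h => hne (Fin.ext h.symm)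
      simp [aK, cz, this]
    · simp
  have hz2 : ∀ j : Fin n, N ≤ (j : ℕ) → ∑ i', G (Sum.inr (Sum.inl i')) *
      ((aK N n (Sum.inr (Sum.inl i')) j : ℤ) : ℝ) = 0 := by
    intro j hj
    refine Finset.sum_eq_zero fun i _ => ?_
    have : (j : ℕ) ≠ i := by omega
    simp [aK, this]
  obtain ⟨p1, p2, p3, p4, p5⟩ := (mem_iff hn u).1 hu
  have key := num_zero (z := fun i => u (cz hn i)) (X := u (jX hn)) (Y := u (jY hn))
    (W := u (jW hn)) (T := T) hs (p1 _) (p1 _) (p1 _) p5
    (Glo := fun i => G (Sum.inl (cz hn i))) (Gup := fun i => G (Sum.inr (Sum.inl i)))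
    (G0 := G (Sum.inr (Sum.inr 0))) (G1 := G (Sum.inr (Sum.inr 1)))
    (G2 := G (Sum.inr (Sum.inr 2))) (GX := G (Sum.inl (jX hn))) (GY := G (Sum.inl (jY hn)))
    (GW := G (Sum.inl (jW hn)))
    (fun i h => by have := hG1 _ h; rw [dot_lo] at this; simp only [bK] at this; linarith)
    (fun i h => by have := hG1 _ h; rwa [dot_up hn] at this)
    (fun h => by have := hG1 _ h; rwa [dot_0 hn] at this)
    (fun h => by have := hG1 _ h; rwa [dot_1 hn] at this)
    (fun h => by have := hG1 _ h; rwa [dot_2 hn] at this)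
    (fun h => by have := hG1 _ h; rw [dot_lo] at this; simp only [bK] at this; linarith)
    (fun h => by have := hG1 _ h; rw [dot_lo] at this; simp only [bK] at this; linarith)
    (fun h => by have := hG1 _ h; rw [dot_lo] at this; simp only [bK] at this; linarith)
    (fun i => by
      have := hG3 (cz hn i)
      rw [hz1] at this
      have h1 : (i : ℕ) < N + 2 := by omega
      have h2 : ¬ ((i : ℕ) = N ∨ (i : ℕ) = N + 2) := by omega
      have h3 : ¬ ((i : ℕ) = N + 1 ∨ (i : ℕ) = N + 2) := by omega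
      simpa [aK, cz, h1, h2, h3] using this)
    (by
      have := hG3 (jX hn)
      rw [hz2 _ (by simp [jX])] at this
      simp [aK, jX] at this
      linarith!)
    (by
      have := hG3 (jY hn)
      rw [hz2 _ (by simp [jY])] at this
      simp [aK, jY] at this
      linarith!)
    (by
      have := hG3 (jW hn)
      rw [hz2 _ (by simp [jW])] at this
      simp [aK, jW] at this
      linarith!)
  obtain ⟨k1, k2, k3, k4, k5, k6, k7, k8⟩ := key
  intro k
  have hGk : G k = 0 := by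
    obtain ⟨k, hk⟩ := k
    rcases k with j | i | i
    · rcases coords_cases hn j with ⟨i, rfl⟩ | rfl | rfl | rfl
      · exact k1 i
      · exact k6
      · exact k7
      · exact k8
    · exact k2 i
    · match i with
      | 0 => exact k3
      | 1 => exact k4
      | 2 => exact k5
  rw [hG, dif_pos k.2] at hGk
  exact hGk

end

end Pool.Agent.H25R3.Cones
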