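import Pool.Agent.H25R3.Cones.Simple

/-!
# Unimodularity at a simple vertex
-/

namespace Pool.Agent.H25R3.Cones

variable {n : ℕ} {K : Type} [Fintype K]
variable {a : K → Fin n → ℤ} {β : K → ℝ} {u : Fin n → ℝ}

theorem dotL_single (c : Fin n → ℤ) (j : Fin n) : dotL c (Pi.single j 1) = c j := by
  rw [dotL_apply, Finset.sum_eq_single j]
  · simp
  · intro i _ hij
    simp [hij]
  · simp

/-- two primitive integer vectors which are real multiples of each other agree up to sign -/
theorem prim_unique {c m : Fin n → ℤ} (hc : Finset.univ.gcd c = 1) (hm : Finset.univ.gcd m = 1)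
    {t : ℝ} (ht : ∀ j, (c j : ℝ) = t * m j) : ∃ τ : ℤ, (τ = 1 ∨ τ = -1) ∧ ∀ j, c j = τ * m j := by
  have h1 : ∃ j, m j ≠ 0 := by
    by_contra hcon
    push Not at hcon
    have : Finset.univ.gcd m = 0 := Finset.gcd_eq_zero_iff.2 fun j _ => hcon j
    rw [this] at hm
    norm_num at hm
  obtain ⟨j, hj⟩ := h1
  have h2 : ∀ i, m j * c i = c j * m i := by
    intro i
    have : ((m j * c i : ℤ) : ℝ) = ((c j * m i : ℤ) : ℝ) := by
      push_cast
      rw [ht i, ht j]
      ring
    exact_mod_cast this
  have h3 : Finset.univ.gcd (fun i => m j * c i) = Finset.univ.gcd (fun i => c j * m i) := by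
    congr 1
    funext i
    exact h2 i
  rw [Finset.gcd_mul_left, Finset.gcd_mul_left, hc, hm, mul_one, mul_one,
    ← Int.abs_eq_normalize, ← Int.abs_eq_normalize] at h3
  rcases abs_eq_abs.1 h3 with h | h
  · refine ⟨1, Or.inl rfl, fun i => ?_⟩
    have := h2 i
    rw [← h] at this
    rw [mul_left_cancel₀ hj this, one_mul]
  · refine ⟨-1, Or.inr rfl, fun i => ?_⟩
    have := h2 i
    have h4 : c j = - m j := by omega
    rw [h4] at this
    have h5 : m j * c i = m j * (-1 * m i) := by rw [this]; ring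
    exact mul_left_cancel₀ hj h5

theorem card_tight (hs : ∀ d : Fin n → ℝ, (∀ k, dotL (a k) u = β k → dotL (a k) d = 0) → d = 0)
    (hli : LinearIndependent ℝ (fun (k : {k // dotL (a k) u = β k}) (j : Fin n) =>
      ((a k j : ℤ) : ℝ))) : Nonempty (Fin n ≃ {k // dotL (a k) u = β k}) := by
  classical
  have h1 : Fintype.card {k // dotL (a k) u = β k} ≤ n := by
    have := hli.fintype_card_le_finrank
    rwa [Module.finrank_fin_fun] at this
  have h2 : n ≤ Fintype.card {k // dotL (a k) u = β k} := by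
    let Φ : (Fin n → ℝ) →ₗ[ℝ] ({k // dotL (a k) u = β k} → ℝ) :=
      LinearMap.pi fun k => dotL (a k)
    have hinj : Function.Injective Φ := by
      rw [← LinearMap.ker_eq_bot, LinearMap.ker_eq_bot']
      intro v hv
      refine hs v fun k hk => ?_
      have := congrFun hv ⟨k, hk⟩
      simpa [Φ] using this
    have := LinearMap.finrank_le_finrank_of_injective hinj
    rwa [Module.finrank_fin_fun, Module.finrank_fintype_fun_eq_card] at this
  exact ⟨Fintype.equivOfCardEq (by rw [Fintype.card_fin]; omega)⟩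

theorem unimodularAt_iff (hu : u ∈ PP a β)
    (hprim : ∀ k, dotL (a k) u = β k → Finset.univ.gcd (a k) = 1)
    (hs : ∀ d : Fin n → ℝ, (∀ k, dotL (a k) u = β k → dotL (a k) d = 0) → d = 0)
    (hli : LinearIndependent ℝ (fun (k : {k // dotL (a k) u = β k}) (j : Fin n) =>
      ((a k j : ℤ) : ℝ))) :
    UnimodularAt (PP a β) u ↔ ∀ d : Fin n → ℝ,
      (∀ k, dotL (a k) u = β k → ∃ z : ℤ, dotL (a k) d = z) → ∀ j, ∃ z : ℤ, d j = z := by
  obtain ⟨e⟩ := card_tight hs hli
  obtain ⟨dd, hdd⟩ := exists_dual e hs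
  let M : Matrix (Fin n) (Fin n) ℤ := fun i => a (e i)
  let E : Fin n ≃ {F : Set (Fin n → ℝ) // IsFacet (PP a β) F ∧ u ∈ F} :=
    Equiv.ofBijective (fun i => ⟨face e i, isFacet_face hu e hs i, mem_face hu e i⟩) ⟨by
      intro i j hij
      exact face_injective hu e hs (congrArg Subtype.val hij), by
      rintro ⟨F, hF, huF⟩
      obtain ⟨i, hi⟩ := face_surjective hu e hs hF huF
      exact ⟨i, Subtype.ext hi.symm⟩⟩
  have hE : ∀ i, (E i : Set (Fin n → ℝ)) = face e i := fun i => rfl
  -- matrix form of the functionals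
  have hmv : ∀ (A : Matrix (Fin n) (Fin n) ℤ) (d : Fin n → ℝ) (i : Fin n),
      (A.map (Int.castRingHom ℝ)).mulVec d i = dotL (A i) d := by
    intro A d i
    rw [dotL_apply]
    rfl
  constructor
  · rintro ⟨e', C, hC, hdet⟩ d hd
    let σ : Fin n ≃ Fin n := e'.trans E.symm
    have hσ : ∀ i, (e' i : Set (Fin n → ℝ)) = face e (σ i) := by
      intro i
      rw [← hE]
      simp [σ]
    have hCM : ∀ i, ∃ τ : ℤ, (τ = 1 ∨ τ = -1) ∧ ∀ j, C i j = τ * M (σ i) j := by
      intro i
      obtain ⟨hC1, hC2⟩ := hC i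
      rw [hσ] at hC2
      have h1 : ∀ v ∈ LinearMap.ker (dotL (a (e (σ i)))), dotL (C i) v = 0 := by
        rw [← vectorSpan_face hu e hs]
        intro v hv
        have h2 : vectorSpan ℝ (face e (σ i)) ≤ LinearMap.ker (dotL (C i)) := by
          rw [vectorSpan_def, Submodule.span_le]
          rintro _ ⟨x, hx, y, hy, rfl⟩
          have := hC2 x hx y hy
          simp only [vsub_eq_sub, SetLike.mem_coe, LinearMap.mem_ker, map_sub, dotL_apply, this,
            sub_self]
        exact LinearMap.mem_ker.1 (h2 hv)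
      refine prim_unique hC1 (hprim _ (e (σ i)).2) (t := -(dotL (C i) (dd (σ i)))) fun j => ?_
      rw [← dotL_single (C i) j, ← dotL_single (M (σ i)) j]
      conv_lhs => rw [decomp e hs hdd (Pi.single j 1)]
      rw [map_sum, Finset.sum_eq_single (σ i)]
      · rw [map_smul, smul_eq_mul]
        ring
      · intro k _ hk
        rw [map_smul, h1 (dd k) (by rw [LinearMap.mem_ker, hdd, if_neg (Ne.symm hk)]), smul_zero]
      · simp
    choose τ hτ hτ' using hCM
    have hCeq : C = Matrix.diagonal τ * M.submatrix σ id := by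
      ext i j
      rw [Matrix.diagonal_mul]
      exact hτ' i j
    have hdetM : |M.det| = 1 := by
      rw [hCeq, Matrix.det_mul, Matrix.det_diagonal, abs_mul, Finset.abs_prod] at hdet
      have h1 : ∀ i, |τ i| = 1 := fun i => by rcases hτ i with h | h <;> rw [h] <;> rfl
      simp only [h1, Finset.prod_const_one, one_mul] at hdet
      have h2 := Matrix.det_permute σ M
      rw [h2, abs_mul] at hdet
      have h3 : |((Equiv.Perm.sign σ : ℤˣ) : ℤ)| = 1 := by
        rcases Int.units_eq_one_or (Equiv.Perm.sign σ) with h | h <;> rw [h] <;> rfl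
      rw [Int.cast_id, h3, one_mul] at hdet
      exact hdet
    have hunit : IsUnit M.det := Int.isUnit_iff_abs_eq.2 hdetM
    have hinv : M⁻¹ * M = 1 := Matrix.nonsing_inv_mul _ hunit
    choose z hz using fun i => hd (e i) (e i).2
    intro j
    refine ⟨(M⁻¹).mulVec z j, ?_⟩
    have h1 : (M⁻¹.map (Int.castRingHom ℝ)) * (M.map (Int.castRingHom ℝ)) = 1 := by
      rw [← Matrix.map_mul, hinv]
      simp
    have h2 : d = (M⁻¹.map (Int.castRingHom ℝ)).mulVec ((M.map (Int.castRingHom ℝ)).mulVec d) := by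
      rw [Matrix.mulVec_mulVec, h1, Matrix.one_mulVec]
    have h3 : (M.map (Int.castRingHom ℝ)).mulVec d = fun i => (z i : ℝ) := by
      funext i
      rw [hmv]
      exact hz i
    rw [h3] at h2
    rw [h2, Matrix.mulVec, Matrix.mulVec]
    simp [dotProduct]
  · intro hint
    refine ⟨E, M, fun i => ⟨hprim _ (e i).2, fun x hx y hy => ?_⟩, ?_⟩
    · rw [hE] at hx hy
      have h1 := hx.2
      have h2 := hy.2
      rw [dotL_apply] at h1 h2
      rw [h1, h2]
    · have h1 : ∀ i j, ∃ z : ℤ, dd i j = z := by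
        intro i
        refine hint (dd i) fun k hk => ?_
        obtain ⟨i', hi'⟩ : ∃ i, (e i : K) = k := ⟨e.symm ⟨k, hk⟩, by simp⟩
        subst hi'
        rw [hdd]
        split_ifs
        · exact ⟨-1, by simp⟩
        · exact ⟨0, by simp⟩
      choose D hD using h1
      have h2 : M * (Matrix.of fun j i => D i j : Matrix (Fin n) (Fin n) ℤ) = -1 := by
        ext i j
        have h3 : ((M * (Matrix.of fun j i => D i j : Matrix (Fin n) (Fin n) ℤ)) i j : ℝ) =
            dotL (a (e i)) (dd j) := by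
          rw [Matrix.mul_apply, dotL_apply]
          push_cast
          refine Finset.sum_congr rfl fun k _ => ?_
          rw [hD j k]
          rfl
        rw [hdd] at h3
        have h4 : ((M * (Matrix.of fun j i => D i j : Matrix (Fin n) (Fin n) ℤ)) i j : ℝ) =
            (((-1 : Matrix (Fin n) (Fin n) ℤ) i j : ℤ) : ℝ) := by
          rw [h3, Matrix.neg_apply, Matrix.one_apply]
          split_ifs <;> simp
        exact_mod_cast h4
      have h3 : M.det * (Matrix.of fun j i => D i j : Matrix (Fin n) (Fin n) ℤ).det = (-1) ^ n := by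
        rw [← Matrix.det_mul, h2, Matrix.det_neg, Matrix.det_one, mul_one, Fintype.card_fin]
      have h4 : IsUnit M.det := by
        refine isUnit_of_mul_isUnit_left (y := (Matrix.of fun j i => D i j : Matrix (Fin n) (Fin n) ℤ).det) ?_
        rw [h3]
        exact (isUnit_one.neg).pow n
      exact Int.isUnit_iff_abs_eq.1 h4

end Pool.Agent.H25R3.Cones
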